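import Pool.Agent.Helper33.Iso.Goals

/-!
PROJECT ISO: a collar in the cube.
-/

set_option autoImplicit false

open Topology unitInterval Set

namespace Pool.Agent.Helper66.Iso

open Pool.Agent.Helper72.Orb

universe u

/-- clip every coordinate to `[-1/2, 1/2]` and add `1/2` -/
noncomputable def clip {N : ℕ} (v : Fin N → ℝ) : Fin N → I := fun i =>
  Set.projIcc (0 : ℝ) 1 zero_le_one (v i + 1 / 2)

theorem continuous_clip {N : ℕ} : Continuous (clip : (Fin N → ℝ) → Fin N → I) := by
  apply continuous_pi
  intro i
  exact continuous_projIcc.comp ((continuous_apply i).add continuous_const)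

theorem clip_eq {N : ℕ} (v : Fin N → ℝ) (hv : ‖v‖ ≤ 1 / 2) : clip v = ofCc v hv := by
  funext i
  have h := (norm_le_pi_norm v i).trans hv
  rw [Real.norm_eq_abs, abs_le] at h
  have hm : v i + 1 / 2 ∈ Set.Icc (0 : ℝ) 1 := by
    constructor <;> linarith
  simp only [clip, ofCc]
  rw [Set.projIcc_of_mem zero_le_one hm]

theorem clip_cc {N : ℕ} (x : Fin N → I) : clip (cc x) = x := by
  rw [clip_eq _ (norm_cc_le x)]
  apply cc_injective
  rw [cc_ofCc]

theorem collar : Pool.Agent.Helper33.Iso.COLLAR.{u} := by
  intro A _ N l a b c hl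
  classical
  let r : I × (Fin N → I) → ℝ := fun p => (1 + (p.1 : ℝ)) * (2 * ‖cc p.2‖)
  have hr : Continuous r := by
    have h1 : Continuous fun p : I × (Fin N → I) => (p.1 : ℝ) :=
      continuous_subtype_val.comp continuous_fst
    have h2 : Continuous fun p : I × (Fin N → I) => ‖cc p.2‖ :=
      (continuous_cc.comp continuous_snd).norm
    exact (continuous_const.add h1).mul (continuous_const.mul h2)
  let f : I × (Fin N → I) → A := fun p => l (clip ((1 + (p.1 : ℝ)) • cc p.2))
  have hf : Continuous f := by
    have h1 : Continuous fun p : I × (Fin N → I) => (p.1 : ℝ) :=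
      continuous_subtype_val.comp continuous_fst
    exact l.continuous.comp (continuous_clip.comp
      ((continuous_const.add h1).smul (continuous_cc.comp continuous_snd)))
  let g : I × (Fin N → I) → A := fun p => c.extend (r p - 1)
  have hg : Continuous g := c.continuous_extend.comp (hr.sub continuous_const)
  have hfg : ∀ p, r p = 1 → f p = g p := by
    intro p hp
    have h0 : (0 : ℝ) ≤ 1 + (p.1 : ℝ) := by
      have := p.1.2.1
      linarith
    have hn : ‖(1 + (p.1 : ℝ)) • cc p.2‖ = 1 / 2 := by
      rw [norm_smul, Real.norm_eq_abs, abs_of_nonneg h0]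
      simp only [r] at hp
      linarith
    have h1 : f p = a := by
      simp only [f]
      rw [clip_eq _ hn.le]
      apply hl
      apply mem_boundary_of_norm
      rw [cc_ofCc]
      exact hn
    have h2 : g p = a := by
      simp only [g]
      rw [hp, sub_self]
      exact c.extend_zero
    rw [h1, h2]
  refine ⟨⟨fun p => if r p ≤ 1 then f p else g p, ?_⟩, ?_, ?_⟩
  · exact hf.if_le hg hr continuous_const hfg
  · intro x
    have hx : r (0, x) ≤ 1 := by
      have := norm_cc_le x
      simp only [r]
      have h0 : ((0 : I) : ℝ) = 0 := rfl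
      rw [h0]
      linarith
    show (if r (0, x) ≤ 1 then f (0, x) else g (0, x)) = l x
    rw [if_pos hx]
    simp only [f]
    have h0 : ((0 : I) : ℝ) = 0 := rfl
    rw [h0, add_zero, one_smul, clip_cc]
  · intro t x hx
    have hrx : r (t, x) = 1 + (t : ℝ) := by
      simp only [r]
      rw [norm_cc_boundary hx]
      ring
    show (if r (t, x) ≤ 1 then f (t, x) else g (t, x)) = c t
    have hgt : g (t, x) = c t := by
      simp only [g]
      rw [hrx, add_sub_cancel_left]
      exact c.extend_extends' t
    split_ifs with h
    · rw [hrx] at h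
      have h1 : r (t, x) = 1 := by
        rw [hrx]
        have := t.2.1
        linarith
      rw [hfg _ h1, hgt]
    · exact hgt

theorem gCOLLAR : Pool.Agent.Helper33.Iso.COLLAR.{u} := collar

end Pool.Agent.Helper66.Iso
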