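import Pool.Agent.Helper33.Iso.Goals2

/-!
PROJECT ISO: the base `PB_1(M) = M` is aspherical.
-/

set_option autoImplicit false

open Topology unitInterval Set

namespace Pool.Agent.Helper66.Iso

open Pool.Agent.Helper72.Orb

universe u v w

theorem gTRIVB (hLIFTBD : Pool.Agent.Helper33.Iso.LIFTBD.{max v w, max v w})
    (hFREEREL : Pool.Agent.Helper33.Iso.FREEREL.{max v w}) :
    Pool.Agent.Helper33.Iso.TRIVB.{u, v, w} := by
  intro H _ E _ _ V _ _ _ hE hX e y q b
  obtain ⟨d, rfl⟩ := exists_ofLoop b
  have h0 : (0 : Fin (q + 2) → I) ∈ Cube.boundary (Fin (q + 2)) := ⟨0, Or.inl rfl⟩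
  obtain ⟨L, hL0, hL⟩ := exists_lift_cube (cover_PB hE hX 1) d.1 (e, y) (d.2 0 h0)
  have hbd0 : ∀ x ∈ Cube.boundary (Fin (q + 2)), L x = L 0 := by
    refine hLIFTBD _ _ _ (cover_PB hE hX 1) q L ?_
    intro x hx
    rw [hL, hL0]
    exact d.2 x hx
  have hbd : ∀ x ∈ Cube.boundary (Fin (q + 2)), L x = (e, y) := fun x hx => by
    rw [hbd0 x hx, hL0]
  have hcon := hE.contractible
  obtain ⟨e0, ⟨F⟩⟩ := id_nullhomotopic E
  -- the contraction
  let C : C(I × ((Fin 1 → E) × OrbitConf H V 1), (Fin 1 → E) × OrbitConf H V 1) :=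
    { toFun := fun p => (fun i => F (p.1, p.2.1 i),
        ⟨fun i => (1 - (p.1 : ℝ)) • p.2.2.1 i, fun i j hij _ => absurd (Subsingleton.elim i j) hij⟩)
      continuous_toFun := by
        apply Continuous.prodMk
        · apply continuous_pi
          intro i
          exact F.continuous.comp (continuous_fst.prodMk
            ((continuous_apply i).comp (continuous_fst.comp continuous_snd)))
        · apply Continuous.subtype_mk
          apply continuous_pi
          intro i
          apply Continuous.smul
          · exact continuous_const.sub (continuous_subtype_val.comp continuous_fst)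
          · exact (continuous_apply i).comp (continuous_subtype_val.comp
              (continuous_snd.comp continuous_snd)) }
  have hC0 : ∀ p, C (0, p) = p := by
    intro p
    refine Prod.ext ?_ (Subtype.ext ?_)
    · funext i
      change F (0, p.1 i) = p.1 i
      rw [F.apply_zero]
      rfl
    · funext i
      change (1 - ((0 : I) : ℝ)) • p.2.1 i = p.2.1 i
      simp
  have hC1 : ∀ p p', C (1, p) = C (1, p') := by
    intro p p'
    refine Prod.ext ?_ (Subtype.ext ?_)
    · funext i
      change F (1, p.1 i) = F (1, p'.1 i)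
      rw [F.apply_one, F.apply_one]
      rfl
    · funext i
      change (1 - ((1 : I) : ℝ)) • p.2.1 i = (1 - ((1 : I) : ℝ)) • p'.2.1 i
      simp
  have hfree : Pool.Agent.Helper33.Iso.FreelyNull L := by
    refine ⟨⟨fun p => C (p.1, L p.2), C.continuous.comp (continuous_fst.prodMk
      (L.continuous.comp continuous_snd))⟩, ?_, ?_, ?_⟩
    · intro x
      exact hC0 (L x)
    · intro t x hx x' hx'
      change C (t, L x) = C (t, L x')
      rw [hbd x hx, hbd x' hx']
    · intro x x'
      exact hC1 (L x) (L x')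
  have hrel := hFREEREL _ (q + 2) (by omega) L (e, y) hbd hfree
  rw [one_eq_ofLoop, ofLoop_eq_iff]
  obtain ⟨G⟩ := hrel
  refine ⟨(G.compContinuousMap ⟨Quotient.mk'', (cover_PB hE hX 1).continuous⟩).cast ?_ ?_⟩
  · ext x
    exact hL x
  · ext x
    rfl

end Pool.Agent.Helper66.Iso
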